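import Pool.Agent.N977.P.Stm

/-!
Choice of the parameters of the cascade of packets: the perturbation bounds.
-/

open Set Filter Topology

namespace Pool.Agent.N937.NSP

open Pool.Agent.N977.Q (Mn al mu Mn_pos Mn_succ one_le_Mn log_Mn one_le_log logN_le n_le_L sum_small
  large_log al_pos mu_pos L_mono L_succ_le al_succ_le al_le Sgn exp_one_le one_le_L)
open Pool.Agent.N977.S (LL e0 Lf Pr Ex)
open Pool.Agent.N977.P

/-- facts about the logarithms, the widths and the dissipation coefficients -/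
structure Lg (i : ℕ) (θ p c E B₀ C₁ h A : ℝ) (J : ℕ → ℕ) (d D : ℕ → ℝ) : Prop where
  F : Lf i θ p c E B₀ C₁ h A 8
  jp : Jp J
  Lb : ∀ n, i ≤ n → 10 ^ 7 * (1 + E + B₀ + c + 1 / c + C₁ + c * C₁ / θ + C₁ / θ + C₁ / (c * θ))
    ≤ LL 8 n
  L2 : ∀ n, i ≤ n → LL 8 n ≤ n + 2
  JM : ∀ n, i ≤ n → J n * LL 8 n ^ 240 ≤ Mn 8 n
  LM : ∀ n, i ≤ n → LL 8 n ^ 240 ≤ Mn 8 n
  d1 : ∀ n, 399 / 100 * (c * (Mn 8 n : ℝ) ^ 2) ≤ d n
  d2 : ∀ n, d n ≤ 401 / 100 * (c * (Mn 8 n : ℝ) ^ 2)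
  D1 : ∀ n, 499 / 100 * (c * (Mn 8 n : ℝ) ^ 2) ≤ D n
  D2 : ∀ n, D n ≤ 501 / 100 * (c * (Mn 8 n : ℝ) ^ 2)

variable {i : ℕ} {θ p c E B₀ C₁ h A : ℝ} {J : ℕ → ℕ} {d D : ℕ → ℝ}

theorem Mn_add' (n k : ℕ) : (Mn 8 (n + k) : ℝ) = Mn 8 n * 2 ^ k := by
  unfold Mn; push_cast; rw [pow_add]; ring

theorem LL_mono {n m : ℕ} (hm : n ≤ m) : LL 8 n ≤ LL 8 m := by
  obtain ⟨k, rfl⟩ := Nat.exists_eq_add_of_le hm
  induction k with
  | zero => exact le_rfl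
  | succ k ih => exact (ih (by omega)).trans (L_mono (by norm_num) (n + k))

theorem LL_two (n k : ℕ) : LL 8 (n + k) ≤ 2 ^ k * LL 8 n := by
  induction k with
  | zero => simp
  | succ k ih =>
    have h1 : LL 8 (n + k + 1) ≤ 2 * LL 8 (n + k) := L_succ_le (by norm_num) (n + k)
    calc LL 8 (n + (k + 1)) ≤ 2 * LL 8 (n + k) := h1
      _ ≤ 2 * (2 ^ k * LL 8 n) := by linarith
      _ = _ := by ring

section

variable (G : Lg i θ p c E B₀ C₁ h A J d D) {n : ℕ} (hn : i ≤ n)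
include G

theorem Lg.pos1 : 0 ≤ 1 / c := by have := G.F.c0; positivity
theorem Lg.pos2 : 0 ≤ c * C₁ / θ := by have := G.F.c0; have := G.F.C7; have := G.F.θ0; positivity
theorem Lg.pos3 : 0 ≤ C₁ / θ := by have := G.F.C7; have := G.F.θ0; positivity
theorem Lg.pos4 : 0 ≤ C₁ / (c * θ) := by
  have := G.F.c0; have := G.F.C7; have := G.F.θ0; positivity

include hn

theorem Lg.Lbig : 10 ^ 7 ≤ LL 8 n := by
  linarith [G.Lb n hn, G.pos1, G.pos2, G.pos3, G.pos4, G.F.E1, G.F.B0, G.F.C7, G.F.c0]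
theorem Lg.LE : 10 ^ 7 * E ≤ LL 8 n := by
  linarith [G.Lb n hn, G.pos1, G.pos2, G.pos3, G.pos4, G.F.E1, G.F.B0, G.F.C7, G.F.c0]
theorem Lg.LEB : 10 ^ 7 * (1 + E + B₀) ≤ LL 8 n := by
  linarith [G.Lb n hn, G.pos1, G.pos2, G.pos3, G.pos4, G.F.E1, G.F.B0, G.F.C7, G.F.c0]
theorem Lg.Lc : 10 ^ 7 * (1 + c) ≤ LL 8 n := by
  linarith [G.Lb n hn, G.pos1, G.pos2, G.pos3, G.pos4, G.F.E1, G.F.B0, G.F.C7, G.F.c0]
theorem Lg.Lc1 : 10 ^ 7 * (1 / c) ≤ LL 8 n := by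
  linarith [G.Lb n hn, G.pos1, G.pos2, G.pos3, G.pos4, G.F.E1, G.F.B0, G.F.C7, G.F.c0]
theorem Lg.LC : 10 ^ 7 * C₁ ≤ LL 8 n := by
  linarith [G.Lb n hn, G.pos1, G.pos2, G.pos3, G.pos4, G.F.E1, G.F.B0, G.F.C7, G.F.c0]
theorem Lg.LcCθ : 10 ^ 7 * (c * C₁ / θ) ≤ LL 8 n := by
  linarith [G.Lb n hn, G.pos1, G.pos2, G.pos3, G.pos4, G.F.E1, G.F.B0, G.F.C7, G.F.c0]
theorem Lg.LCθ : 10 ^ 7 * (C₁ / θ) ≤ LL 8 n := by
  linarith [G.Lb n hn, G.pos1, G.pos2, G.pos3, G.pos4, G.F.E1, G.F.B0, G.F.C7, G.F.c0]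
theorem Lg.LCcθ : 10 ^ 7 * (C₁ / (c * θ)) ≤ LL 8 n := by
  linarith [G.Lb n hn, G.pos1, G.pos2, G.pos3, G.pos4, G.F.E1, G.F.B0, G.F.C7, G.F.c0]

/-- the effect of the perturbations -/
theorem Lg.v : ∀ m, n ≤ m → vvp J d n m ≤ (1 / 16) ^ (m - n) / LL 8 n ^ 210 := by
  intro m hm
  obtain ⟨k, rfl⟩ := Nat.exists_eq_add_of_le hm
  have hc := G.F.c0
  have hL := G.Lbig hn
  have hL1 : 1 ≤ LL 8 n := by linarith
  have hL0 : 0 < LL 8 n := by linarith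
  have hLM := G.LM n hn
  have hJM := G.JM n hn
  have hM1 : (1 : ℝ) ≤ Mn 8 n := G.F.M1 n
  have hM0 : (0 : ℝ) < Mn 8 n := by linarith
  have hMk := Mn_add' n k
  have hd := G.d1 (n + k)
  have hMk0 : (0 : ℝ) < Mn 8 (n + k) := by rw [hMk]; positivity
  have hd0 : 0 < d (n + k) := lt_of_lt_of_le (by positivity) hd
  have hc1 := G.Lc1 hn
  unfold vvp nzp e0
  rw [Nat.add_sub_cancel_left]
  have a1 : 1 / (Mn 8 (n + k) : ℝ) ^ 5 ≤ 1 / 2 * ((1 / 16) ^ k / LL 8 n ^ 210) := by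
    have b1 : 1 / 2 * ((1 / 16 : ℝ) ^ k / LL 8 n ^ 210) = 1 / (16 ^ k * (2 * LL 8 n ^ 210)) := by
      rw [one_div_pow]; field_simp
    rw [b1]
    apply one_div_le_one_div_of_le (by positivity)
    have b2 : (16 : ℝ) ^ k ≤ (2 ^ k) ^ 5 := by
      rw [← pow_mul, mul_comm k 5, pow_mul]
      exact pow_le_pow_left₀ (by norm_num) (by norm_num) k
    have b3 : 2 * LL 8 n ^ 210 ≤ (Mn 8 n : ℝ) ^ 5 := by
      have : 2 * LL 8 n ^ 210 ≤ LL 8 n ^ 240 := by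
        have e1 : LL 8 n ^ 240 = LL 8 n ^ 30 * LL 8 n ^ 210 := by rw [← pow_add]
        rw [e1]
        have e2 : LL 8 n ≤ LL 8 n ^ 30 := le_self_pow₀ hL1 (by norm_num)
        exact mul_le_mul_of_nonneg_right (by linarith) (by positivity)
      exact this.trans (hLM.trans (le_self_pow₀ hM1 (by norm_num)))
    rw [hMk, mul_pow, mul_comm]
    exact mul_le_mul b3 b2 (by positivity) (by positivity)
  have a2 : 4 / 3 * (LL 8 n ^ 9 * (J n * (Mn 8 (n + k) * (1 / 8) ^ k))) / d (n + k)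
      ≤ 1 / 2 * ((1 / 16) ^ k / LL 8 n ^ 210) := by
    have b1 : 4 / 3 * (LL 8 n ^ 9 * (J n * (Mn 8 (n + k) * (1 / 8) ^ k))) / d (n + k)
        ≤ 4 / 3 * (LL 8 n ^ 9 * (J n * (Mn 8 (n + k) * (1 / 8) ^ k)))
          / (399 / 100 * (c * (Mn 8 (n + k) : ℝ) ^ 2)) :=
      div_le_div_of_nonneg_left (by positivity) (by positivity) hd
    refine b1.trans ?_
    have b2 : 4 / 3 * (LL 8 n ^ 9 * (J n * (Mn 8 (n + k) * (1 / 8) ^ k)))
          / (399 / 100 * (c * (Mn 8 (n + k) : ℝ) ^ 2))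
        = (400 / 1197 * (1 / c)) * (LL 8 n ^ 9 * J n * (1 / 16) ^ k / Mn 8 n) := by
      rw [hMk]
      have : (1 / 8 : ℝ) ^ k = (1 / 16) ^ k * 2 ^ k := by rw [← mul_pow]; norm_num
      rw [this]
      field_simp
      ring
    rw [b2]
    have b3 : (J n : ℝ) / Mn 8 n ≤ 1 / LL 8 n ^ 240 := by
      rw [div_le_div_iff₀ hM0 (by positivity)]; linarith
    calc (400 / 1197 * (1 / c)) * (LL 8 n ^ 9 * J n * (1 / 16) ^ k / Mn 8 n)
        = (400 / 1197 * (1 / c)) * (LL 8 n ^ 9 * (1 / 16) ^ k * (J n / Mn 8 n)) := by ring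
      _ ≤ LL 8 n * (LL 8 n ^ 9 * (1 / 16) ^ k * (1 / LL 8 n ^ 240)) := by
          apply mul_le_mul _ _ (by positivity) hL0.le
          · have := G.pos1; linarith
          · exact mul_le_mul_of_nonneg_left b3 (by positivity)
      _ = (1 / LL 8 n ^ 20) * ((1 / 16) ^ k / LL 8 n ^ 210) := by field_simp
      _ ≤ _ := by
          apply mul_le_mul_of_nonneg_right _ (by positivity)
          apply one_div_le_one_div_of_le (by norm_num)
          have : LL 8 n ≤ LL 8 n ^ 20 := le_self_pow₀ hL1 (by norm_num)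
          linarith
  linarith

theorem Lg.w1 : ∀ m, n + 1 ≤ m → vvp J d n m ≤ 1 / LL 8 n ^ 200 := by
  intro m hm
  have hL := G.Lbig hn
  have hL1 : 1 ≤ LL 8 n := by linarith
  refine (G.v hn m (by omega)).trans ?_
  have h1 : (1 / 16 : ℝ) ^ (m - n) ≤ 1 := pow_le_one₀ (by norm_num) (by norm_num)
  refine (div_le_div_of_nonneg_right h1 (by positivity)).trans ?_
  exact one_div_le_one_div_of_le (by positivity) (pow_le_pow_right₀ hL1 (by norm_num))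

theorem Lg.wτ : nzp J n n * (C₁ * LL 8 n ^ h / al θ 2 p 8 n) ≤ 1 / LL 8 n ^ 200 := by
  have hθ := G.F.θ0
  have hM := G.F.M1 n
  have hL := G.Lbig hn
  have hL1 : 1 ≤ LL 8 n := by linarith
  have hL0 : 0 < LL 8 n := by linarith
  have hC := G.F.C7
  have hM0 : (0 : ℝ) < Mn 8 n := by linarith
  have hJM := G.JM n hn
  have hCθ := G.LCθ hn
  have e1 : nzp J n n = LL 8 n ^ 9 * (J n * Mn 8 n) := by unfold nzp; simp
  have b3 : (J n : ℝ) / Mn 8 n ≤ 1 / LL 8 n ^ 240 := by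
    rw [div_le_div_iff₀ hM0 (by positivity)]; linarith
  rw [e1]
  calc _ ≤ LL 8 n ^ 9 * (J n * Mn 8 n) * (C₁ * LL 8 n / (θ * (Mn 8 n : ℝ) ^ 2)) :=
        mul_le_mul_of_nonneg_left (G.F.τM n) (by positivity)
    _ = (C₁ / θ) * (LL 8 n ^ 10 * (J n / Mn 8 n)) := by field_simp
    _ ≤ LL 8 n * (LL 8 n ^ 10 * (1 / LL 8 n ^ 240)) := by
        apply mul_le_mul _ _ (by positivity) hL0.le
        · have := G.pos3; linarith
        · exact mul_le_mul_of_nonneg_left b3 (by positivity)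
    _ = 1 / LL 8 n ^ 229 := by field_simp
    _ ≤ _ := one_div_le_one_div_of_le (by positivity) (pow_le_pow_right₀ hL1 (by norm_num))

theorem Lg.vY : ∀ m, n ≤ m → vvp J d n m ≤ 1 / 2 * YYp n m := by
  intro m hm
  have hL := G.Lbig hn
  have hL1 : 1 ≤ LL 8 n := by linarith
  have hL0 : 0 < LL 8 n := by linarith
  refine (G.v hn m hm).trans ?_
  unfold YYp
  have : (1 / 16 : ℝ) ^ (m - n) / LL 8 n ^ 210 = (1 / LL 8 n ^ 207) * ((1 / 16 : ℝ) ^ (m - n) /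
      LL 8 n ^ 3) := by field_simp
  rw [this]
  apply mul_le_mul_of_nonneg_right _ (by positivity)
  apply one_div_le_one_div_of_le (by norm_num)
  have : LL 8 n ≤ LL 8 n ^ 207 := le_self_pow₀ hL1 (by norm_num)
  linarith

theorem Lg.Y0 : 1 / LL 8 (n + 1) ^ 4 + vvp J d n (n + 2) ≤ YYp n (n + 2) := by
  have h1 := G.vY hn (n + 2) (by omega)
  have hL := G.Lbig hn
  have hL0 : 0 < LL 8 n := by linarith
  have h2 : 1 / LL 8 (n + 1) ^ 4 ≤ 1 / 2 * YYp n (n + 2) := by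
    unfold YYp
    have e : n + 2 - n = 2 := by omega
    rw [e]
    have a1 : LL 8 n ≤ LL 8 (n + 1) := LL_mono (by omega)
    have a5 : 1 / 2 * ((1 / 16 : ℝ) ^ 2 / LL 8 n ^ 3) = 1 / (512 * LL 8 n ^ 3) := by
      field_simp; norm_num
    rw [a5]
    apply one_div_le_one_div_of_le (by positivity)
    calc 512 * LL 8 n ^ 3 ≤ LL 8 n * LL 8 n ^ 3 :=
          mul_le_mul_of_nonneg_right (by linarith) (by positivity)
      _ = LL 8 n ^ 4 := by ring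
      _ ≤ _ := pow_le_pow_left₀ hL0.le a1 4
  linarith

theorem Lg.Ys : ∀ m, n + 2 ≤ m →
    9 / 8 * al θ 2 p 8 m * YYp n m ^ 2 * (1 / d (m + 1)) + vvp J d n (m + 1) ≤ YYp n (m + 1) := by
  intro m hm
  have hc := G.F.c0
  have h1 := G.vY hn (m + 1) (by omega)
  have h2 : 9 / 8 * al θ 2 p 8 m * YYp n m ^ 2 * (1 / d (m + 1)) ≤ 1 / 2 * YYp n (m + 1) := by
    obtain ⟨k, rfl⟩ := Nat.exists_eq_add_of_le (show n ≤ m by omega)
    have hM := G.F.M1 (n + k)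
    have hM0 : (0 : ℝ) < Mn 8 (n + k) := by linarith
    have hL := G.Lbig hn
    have hL1 : 1 ≤ LL 8 n := by linarith
    have hL0 : 0 < LL 8 n := by linarith
    have a0 := G.F.αle (n + k)
    have a1 := LL_two n k
    have a2 := G.Lc1 hn
    have a3 := G.d1 (n + k + 1)
    have a4 : (Mn 8 (n + k + 1) : ℝ) ^ 2 = 4 * (Mn 8 (n + k) : ℝ) ^ 2 := by
      rw [Mn_succ]; push_cast; ring
    rw [a4] at a3
    have hd0 : 0 < d (n + k + 1) := lt_of_lt_of_le (by positivity) a3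
    have a5 : 0 ≤ LL 8 (n + k) := by linarith [LL_mono (show n ≤ n + k by omega)]
    have a6 : LL 8 (n + k) ^ 2 ≤ 4 ^ k * LL 8 n ^ 2 := by
      have := pow_le_pow_left₀ a5 a1 2
      calc _ ≤ _ := this
        _ = (2 ^ k) ^ 2 * LL 8 n ^ 2 := by ring
        _ = _ := by rw [← pow_mul, mul_comm k 2, pow_mul]; norm_num
    have e : n + k + 1 - n = k + 1 := by omega
    unfold YYp
    rw [e, Nat.add_sub_cancel_left]
    have b0 : 1 / d (n + k + 1) ≤ 1 / (399 / 100 * (c * (4 * (Mn 8 (n + k) : ℝ) ^ 2))) :=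
      one_div_le_one_div_of_le (by positivity) a3
    have hα := G.F.α0 (n + k)
    have b1 : 9 / 8 * al θ 2 p 8 (n + k) * ((1 / 16) ^ k / LL 8 n ^ 3) ^ 2 * (1 / d (n + k + 1))
        ≤ 9 / 8 * ((Mn 8 (n + k) : ℝ) ^ 2 * (4 ^ k * LL 8 n ^ 2)) * ((1 / 16) ^ k / LL 8 n ^ 3) ^ 2
        * (1 / (399 / 100 * (c * (4 * (Mn 8 (n + k) : ℝ) ^ 2)))) := by
      apply mul_le_mul _ b0 (by positivity) (by positivity)
      apply mul_le_mul_of_nonneg_right _ (by positivity)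
      apply mul_le_mul_of_nonneg_left _ (by norm_num)
      exact a0.trans (mul_le_mul_of_nonneg_left a6 (by positivity))
    refine b1.trans ?_
    have b2 : 9 / 8 * ((Mn 8 (n + k) : ℝ) ^ 2 * (4 ^ k * LL 8 n ^ 2))
        * ((1 / 16) ^ k / LL 8 n ^ 3) ^ 2 * (1 / (399 / 100 * (c * (4 * (Mn 8 (n + k) : ℝ) ^ 2))))
        = (4 ^ k * (1 / 16) ^ k) * (75 / 1064 * (1 / c) / LL 8 n * ((1 / 16) ^ k / LL 8 n ^ 3)) := by
      field_simp
      norm_num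
    rw [b2]
    have b3 : (4 : ℝ) ^ k * (1 / 16) ^ k ≤ 1 := by
      rw [← mul_pow]; exact pow_le_one₀ (by norm_num) (by norm_num)
    have hp1 := G.pos1
    have b4 : 0 ≤ 75 / 1064 * (1 / c) / LL 8 n * ((1 / 16 : ℝ) ^ k / LL 8 n ^ 3) := by positivity
    refine (mul_le_of_le_one_left b4 b3).trans ?_
    have b5 : 1 / 2 * ((1 / 16 : ℝ) ^ (k + 1) / LL 8 n ^ 3)
        = 1 / 32 * ((1 / 16) ^ k / LL 8 n ^ 3) := by rw [pow_succ]; ring
    rw [b5]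
    apply mul_le_mul_of_nonneg_right _ (by positivity)
    rw [div_le_iff₀ hL0]
    linarith
  linarith

end

end Pool.Agent.N937.NSP
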