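import Pool.Agent.N937.NSP.Par1

/-!
Choice of the parameters of the cascade of packets: the sums over the levels.
-/

open Set Filter Topology

namespace Pool.Agent.N937.NSP

open Pool.Agent.N977.Q (Mn al mu Mn_pos Mn_succ one_le_Mn log_Mn one_le_log logN_le n_le_L sum_small
  large_log al_pos mu_pos L_mono L_succ_le al_succ_le al_le Sgn exp_one_le one_le_L)
open Pool.Agent.N977.S (LL e0 Lf Pr Ex)
open Pool.Agent.N977.P

/-- the sums over all levels -/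
theorem sumXb {E K S : ℝ} {n : ℕ} {g : ℕ → ℝ} (hE : 0 ≤ E) (hL : 0 < LL 8 n) (hg : ∀ m, 0 ≤ g m)
    (hK : ∀ m, m ≤ n + 1 → g m ≤ K)
    (hs : Summable fun k : ℕ => (1 / 2 : ℝ) ^ k * g (n + k))
    (ht : ∑' k : ℕ, (1 / 2 : ℝ) ^ k * g (n + k) ≤ S) :
    (Summable fun m => 8 ^ (m - n) * (g m * Xb E n m)) ∧
    ∑' m, 8 ^ (m - n) * (g m * Xb E n m) ≤ 8 * E * K * (n + 2) + S / LL 8 n ^ 3 := by
  set f : ℕ → ℝ := fun m => 8 ^ (m - n) * (g m * Xb E n m) with hf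
  set v : ℕ → ℝ := fun k => (1 / 2 : ℝ) ^ k * g (n + k) with hv
  have hv0 : ∀ k, 0 ≤ v k := fun k => by
    have := hg (n + k); simp only [hv]; positivity
  have e1 : ∀ m, f (m + (n + 2)) = v (m + 2) / LL 8 n ^ 3 := by
    intro m
    simp only [hf, hv]
    unfold Xb YYp
    rw [if_neg (by omega)]
    have e : m + (n + 2) - n = m + 2 := by omega
    have e' : m + (n + 2) = n + (m + 2) := by omega
    rw [e, e']
    have : (1 / 2 : ℝ) ^ (m + 2) = 8 ^ (m + 2) * (1 / 16) ^ (m + 2) := by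
      rw [← mul_pow]; norm_num
    rw [this]
    ring
  have hs2 : Summable fun m => v (m + 2) := (summable_nat_add_iff 2).2 hs
  have hs1 : Summable fun m => f (m + (n + 2)) := by
    simp only [e1]
    exact hs2.div_const _
  have hsf : Summable f := (summable_nat_add_iff (n + 2)).1 hs1
  refine ⟨hsf, ?_⟩
  rw [← hsf.sum_add_tsum_nat_add (n + 2)]
  have h2 : ∑' m, f (m + (n + 2)) ≤ S / LL 8 n ^ 3 := by
    simp only [e1]
    rw [tsum_div_const]
    apply div_le_div_of_nonneg_right _ (by positivity)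
    refine le_trans ?_ ht
    have := hs.sum_add_tsum_nat_add 2
    have h0 : 0 ≤ ∑ k ∈ Finset.range 2, v k := Finset.sum_nonneg fun k _ => hv0 k
    linarith
  have h3 : ∑ m ∈ Finset.range (n + 2), f m ≤ 8 * E * K * (n + 2) := by
    have : ∀ m ∈ Finset.range (n + 2), f m ≤ 8 * E * K := by
      intro m hm
      rw [Finset.mem_range] at hm
      simp only [hf]
      unfold Xb
      rw [if_pos hm]
      have e : (8 : ℝ) ^ (m - n) ≤ 8 ^ 1 := pow_le_pow_right₀ (by norm_num) (by omega)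
      rw [pow_one] at e
      have h1 := hK m (by omega)
      have h0 := hg m
      calc (8 : ℝ) ^ (m - n) * (g m * E) ≤ 8 * (K * E) := by
            apply mul_le_mul e (mul_le_mul_of_nonneg_right h1 hE) (mul_nonneg h0 hE) (by norm_num)
        _ = _ := by ring
    refine (Finset.sum_le_card_nsmul _ _ _ this).trans (le_of_eq ?_)
    rw [Finset.card_range, nsmul_eq_mul]
    push_cast
    ring
  linarith

variable {i : ℕ} {θ p c E B₀ C₁ h A : ℝ} {J : ℕ → ℕ} {d D : ℕ → ℝ}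

section

variable (G : Lg i θ p c E B₀ C₁ h A J d D) {n : ℕ} (hn : i ≤ n)
include G

theorem Lg.Jm {a b : ℕ} (hab : a ≤ b) : (J a : ℝ) ≤ J b := by
  have := monotone_nat_of_le_succ G.jp.mono hab
  exact_mod_cast this

theorem Lg.J1 (a : ℕ) : (1 : ℝ) ≤ J a := by exact_mod_cast G.jp.J1 a

include hn

theorem Lg.sG : (Summable fun m => 8 ^ (m - n) * (J m * Xb E n m)) ∧
    ∑' m, 8 ^ (m - n) * (J m * Xb E n m)
      ≤ 8 * E * (3 * J n) * (n + 2) + 10 * ((n : ℝ) + 2) ^ 2 * J n / LL 8 n ^ 3 := by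
  have hL := G.Lbig hn
  have hE := G.F.E1
  have h3 : (J (n + 1) : ℝ) ≤ 3 * J n := by exact_mod_cast G.jp.three n
  exact sumXb (g := fun m => (J m : ℝ)) (by linarith) (by linarith) (fun m => Nat.cast_nonneg _)
    (fun m hm => (G.Jm hm).trans h3) (G.jp.s1 n).1 (G.jp.s1 n).2

theorem Lg.sη {x : ℝ} (hx : (n : ℝ) + 2 = x) :
    (Summable fun m => 8 ^ (m - n) * (J m * ((J m : ℝ) - 1) / Mn 8 m * Xb E n m)) ∧
    ∑' m, 8 ^ (m - n) * (J m * ((J m : ℝ) - 1) / Mn 8 m * Xb E n m)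
      ≤ 8 * E * (J n / x ^ 250) * x + (J n / x ^ 248) / LL 8 n ^ 3 := by
  have hL := G.Lbig hn
  have hE := G.F.E1
  have hn2 : 0 < x := by rw [← hx]; positivity
  have s2 := G.jp.s2 n
  have s3 := G.jp.s3 n
  have hE0 : 0 ≤ E := by linarith
  have hL0 : 0 < LL 8 n := by linarith
  rw [hx] at s2 s3
  rw [← hx]
  nth_rewrite 1 [hx]
  nth_rewrite 2 [hx]
  refine sumXb (g := fun m => (J m : ℝ) * ((J m : ℝ) - 1) / Mn 8 m) hE0 hL0
    (fun m => ?_) (fun m hm => ?_) s3.1 ?_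
  · have h1 := G.J1 m
    have h2 : (0 : ℝ) ≤ (J m : ℝ) - 1 := sub_nonneg.2 h1
    positivity
  · rw [le_div_iff₀ (pow_pos hn2 250)]
    exact s2 m hm
  · rw [le_div_iff₀ (pow_pos hn2 248)]
    exact s3.2

theorem Lg.n3 : (n : ℝ) + 2 ≤ 3 * LL 8 n := by
  have h1 : ((n : ℝ) + 1) / 2 ≤ LL 8 n := n_le_L (by norm_num) n
  have h2 := G.Lbig hn
  linarith

theorem Lg.Gf : (B₀ + 1) * J n + 100 * ∑' m, 8 ^ (m - n) * (J m * Xb E n m)
    < J n * LL 8 n ^ 4 := by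
  have hL := G.Lbig hn
  have hL0 : 0 < LL 8 n := by linarith
  have hL1 : 1 ≤ LL 8 n := by linarith
  have hE := G.F.E1
  have hB := G.F.B0
  have hJ := G.J1 n
  have hEB := G.LEB hn
  have h3 := G.n3 hn
  have hn2 : (0 : ℝ) < (n : ℝ) + 2 := by positivity
  have h1 := (G.sG hn).2
  have h4 : 8 * E * (3 * J n) * (n + 2) ≤ 72 * (E * LL 8 n) * J n := by
    have : E * (n + 2) ≤ E * (3 * LL 8 n) := mul_le_mul_of_nonneg_left h3 (by linarith)
    nlinarith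
  have h5 : 10 * ((n : ℝ) + 2) ^ 2 * J n / LL 8 n ^ 3 ≤ 90 * J n := by
    rw [div_le_iff₀ (by positivity)]
    have e1 := pow_le_pow_left₀ hn2.le h3 2
    have e2 : LL 8 n ^ 2 ≤ LL 8 n ^ 3 := pow_le_pow_right₀ hL1 (by norm_num)
    have e3 : ((n : ℝ) + 2) ^ 2 ≤ 9 * LL 8 n ^ 3 := by
      calc _ ≤ _ := e1
        _ = 9 * LL 8 n ^ 2 := by ring
        _ ≤ _ := by linarith
    have := mul_le_mul_of_nonneg_right e3 (by linarith : (0 : ℝ) ≤ J n)
    linarith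
  have h6 : B₀ + 1 + 100 * (72 * (E * LL 8 n) + 90) < LL 8 n ^ 4 := by
    have e1 : LL 8 n ^ 2 ≤ LL 8 n ^ 4 := pow_le_pow_right₀ hL1 (by norm_num)
    have e2 : 10 ^ 7 * (1 + E + B₀) * LL 8 n ≤ LL 8 n ^ 2 := by
      rw [sq]; exact mul_le_mul_of_nonneg_right hEB hL0.le
    have e3 : 0 ≤ E * LL 8 n := by positivity
    have e4 : B₀ * 1 ≤ B₀ * LL 8 n := mul_le_mul_of_nonneg_left hL1 hB
    nlinarith
  have h7 := mul_lt_mul_of_pos_left h6 (by linarith : (0 : ℝ) < J n)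
  calc _ ≤ (B₀ + 1) * J n + 100 * (72 * (E * LL 8 n) * J n + 90 * J n) := by linarith
    _ = J n * (B₀ + 1 + 100 * (72 * (E * LL 8 n) + 90)) := by ring
    _ < _ := h7

theorem Lg.ηf {C₂ r : ℝ} (hC₂ : 1 ≤ C₂) (hr : r ≤ 2) :
    10 ^ 4 * (J n * LL 8 n ^ 4) ^ 2 * √((C₁ * LL 8 n ^ h / al θ 2 p 8 n) / c)
    + 10 ^ 4 * ∑' m, 8 ^ (m - n) * (J m * ((J m : ℝ) - 1) / Mn 8 m * Xb E n m)
      ≤ C₂ * LL 8 n ^ (-r) * J n := by
  have hc := G.F.c0
  have hθ := G.F.θ0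
  have hM := G.F.M1 n
  have hL := G.Lbig hn
  have hL0 : 0 < LL 8 n := by linarith
  have hL1 : 1 ≤ LL 8 n := by linarith
  have hC := G.F.C7
  have hE := G.F.E1
  have hLE := G.LE hn
  have hJ := G.J1 n
  have hJM := G.JM n hn
  have hM0 : (0 : ℝ) < Mn 8 n := by linarith
  have hL2 := G.L2 n hn
  have hn2 : (0 : ℝ) < (n : ℝ) + 2 := by positivity
  obtain ⟨x, hx⟩ : ∃ x : ℝ, (n : ℝ) + 2 = x := ⟨_, rfl⟩
  have hsη := (G.sη hn hx).2
  rw [hx] at hL2 hn2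
  clear hx
  have e6 : 1 / LL 8 n ^ 2 ≤ LL 8 n ^ (-r) := by
    rw [one_div, ← Real.rpow_natCast, ← Real.rpow_neg hL0.le]
    apply Real.rpow_le_rpow_of_exponent_le hL1
    push_cast
    linarith
  -- the first term
  have e4 : (C₁ * LL 8 n ^ h / al θ 2 p 8 n) / c ≤ (LL 8 n / Mn 8 n) ^ 2 := by
    have a1 := div_le_div_of_nonneg_right (G.F.τM n) hc.le
    refine a1.trans ?_
    have a2 : C₁ * LL 8 n / (θ * (Mn 8 n : ℝ) ^ 2) / c
        = (C₁ / (c * θ)) * (LL 8 n / (Mn 8 n : ℝ) ^ 2) := by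
      field_simp
    have a3 : (LL 8 n / Mn 8 n) ^ 2 = LL 8 n * (LL 8 n / (Mn 8 n : ℝ) ^ 2) := by
      ring
    rw [a2, a3]
    apply mul_le_mul_of_nonneg_right _ (by positivity)
    have := G.LCcθ hn
    have := G.pos4
    linarith
  have e5 : √((C₁ * LL 8 n ^ h / al θ 2 p 8 n) / c) ≤ LL 8 n / Mn 8 n := by
    rw [← Real.sqrt_sq (by positivity : 0 ≤ LL 8 n / (Mn 8 n : ℝ))]
    exact Real.sqrt_le_sqrt e4
  have b3 : (J n : ℝ) / Mn 8 n ≤ 1 / LL 8 n ^ 240 := by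
    rw [div_le_div_iff₀ hM0 (by positivity)]; linarith
  have t1 : 10 ^ 4 * (J n * LL 8 n ^ 4) ^ 2 * √((C₁ * LL 8 n ^ h / al θ 2 p 8 n) / c)
      ≤ 1 / 2 * (1 / LL 8 n ^ 2) * J n := by
    calc _ ≤ 10 ^ 4 * (J n * LL 8 n ^ 4) ^ 2 * (LL 8 n / Mn 8 n) :=
          mul_le_mul_of_nonneg_left e5 (by positivity)
      _ = 10 ^ 4 * (J n * LL 8 n ^ 9) * (J n / Mn 8 n) := by ring
      _ ≤ 10 ^ 4 * (J n * LL 8 n ^ 9) * (1 / LL 8 n ^ 240) :=
          mul_le_mul_of_nonneg_left b3 (by positivity)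
      _ = (10 ^ 4 / LL 8 n ^ 229) * ((1 / LL 8 n ^ 2) * J n) := by field_simp
      _ ≤ (1 / 2) * ((1 / LL 8 n ^ 2) * J n) := by
          apply mul_le_mul_of_nonneg_right _ (by positivity)
          rw [div_le_iff₀ (by positivity)]
          have : LL 8 n ≤ LL 8 n ^ 229 := le_self_pow₀ hL1 (by norm_num)
          linarith
      _ = _ := by ring
  -- the second term
  have t2 : 10 ^ 4 * ∑' m, 8 ^ (m - n) * (J m * ((J m : ℝ) - 1) / Mn 8 m * Xb E n m)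
      ≤ 1 / 2 * (1 / LL 8 n ^ 2) * J n := by
    have h1 := hsη
    have h5 : 8 * E * (J n / x ^ 250) * x = 8 * E * (J n / x ^ 249) := by
      field_simp
    have h6 : (J n : ℝ) / x ^ 249 ≤ J n / x ^ 248 :=
      div_le_div_of_nonneg_left (by positivity) (by positivity)
        (pow_le_pow_right₀ (hL1.trans hL2) (by norm_num))
    have h7 : (J n / x ^ 248) / LL 8 n ^ 3 ≤ J n / x ^ 248 :=
      div_le_self (by positivity) (one_le_pow₀ hL1)
    have h8 : (J n : ℝ) / x ^ 248 ≤ J n / LL 8 n ^ 248 :=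
      div_le_div_of_nonneg_left (by positivity) (by positivity) (pow_le_pow_left₀ hL0.le hL2 248)
    rw [h5] at h1
    have h9 : 8 * E * (J n / x ^ 249) ≤ 8 * E * (J n / x ^ 248) :=
      mul_le_mul_of_nonneg_left h6 (by positivity)
    have h10 : 10 ^ 4 * ∑' m, 8 ^ (m - n) * (J m * ((J m : ℝ) - 1) / Mn 8 m * Xb E n m)
        ≤ 10 ^ 4 * ((8 * E + 1) * (J n / LL 8 n ^ 248)) := by
      have : (8 * E + 1) * ((J n : ℝ) / x ^ 248) ≤ (8 * E + 1) * (J n / LL 8 n ^ 248) :=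
        mul_le_mul_of_nonneg_left h8 (by positivity)
      linarith
    refine h10.trans ?_
    have h11 : 10 ^ 4 * ((8 * E + 1) * (J n / LL 8 n ^ 248))
        = (10 ^ 4 * (8 * E + 1) / LL 8 n ^ 246) * ((1 / LL 8 n ^ 2) * J n) := by field_simp
    rw [h11]
    have h12 : 10 ^ 4 * (8 * E + 1) / LL 8 n ^ 246 ≤ 1 / 2 := by
      rw [div_le_iff₀ (by positivity)]
      have : LL 8 n ≤ LL 8 n ^ 246 := le_self_pow₀ hL1 (by norm_num)
      linarith
    have h13 : 0 ≤ (1 / LL 8 n ^ 2) * (J n : ℝ) := by positivity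
    have := mul_le_mul_of_nonneg_right h12 h13
    linarith
  have t3 : 1 / LL 8 n ^ 2 * J n ≤ C₂ * LL 8 n ^ (-r) * J n := by
    apply mul_le_mul_of_nonneg_right _ (by linarith)
    exact e6.trans (le_mul_of_one_le_left (Real.rpow_nonneg hL0.le _) hC₂)
  linarith

end

end Pool.Agent.N937.NSP
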