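import Pool.Agent.N937.NSP.Par2

/-!
Existence of the parameters of the cascade of packets.
-/

open Set Filter Topology

namespace Pool.Agent.N937.NSP

open Pool.Agent.N977.Q (Mn al mu Mn_pos Mn_succ one_le_Mn log_Mn one_le_log logN_le n_le_L sum_small
  large_log al_pos mu_pos L_mono L_succ_le al_succ_le al_le Sgn exp_one_le one_le_L)
open Pool.Agent.N977.S (LL e0 Lf Pr Ex log_le_eight large_pow_Mn Mn_add)
open Pool.Agent.N977.P

theorem LL_le {n : ℕ} (h : 10 ^ 7 ≤ LL 8 n) : LL 8 n ≤ n + 2 := by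
  have e : LL 8 n = (n + 3) * Real.log 2 := by
    unfold LL
    rw [log_Mn (by norm_num)]
    have : ((8 : ℕ) : ℝ) = 2 ^ 3 := by norm_num
    rw [this, Real.log_pow]
    push_cast
    ring
  have h2 : Real.log 2 < 7 / 10 := by linarith [Real.log_two_lt_d9]
  have h0 : (0 : ℝ) < (n : ℝ) + 3 := by positivity
  have h3 : LL 8 n ≤ (n + 3) * (7 / 10) := by
    rw [e]; exact mul_le_mul_of_nonneg_left h2.le h0.le
  linarith

theorem par : Pool.Agent.N977.P.S_PAR := by
  intro hJ θ p c E B₀ T hθ hθ1 hp hp2 hc hE hB₀ hT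
  set h := (p - 1) / 2 with hh
  have hh0 : 0 < h := by rw [hh]; linarith
  have hh1 : h ≤ 1 := by rw [hh]; linarith
  set r := (p + 1) / 2 with hr
  have hr1 : 1 < r := by rw [hr]; linarith
  have hr2 : r ≤ 3 / 2 := by rw [hr]; linarith
  set C₁ : ℝ := 9 + 142 / h with hC₁
  have hC₁7 : 9 ≤ C₁ := by rw [hC₁]; have : 0 < 142 / h := by positivity
                           linarith
  have hC₁0 : 0 < C₁ := by linarith
  set C₂ : ℝ := (21 * c * C₁ * E + 6 * c) / θ + 11 with hC₂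
  have hC₂11 : 11 ≤ C₂ := by
    rw [hC₂]
    have : 0 ≤ (21 * c * C₁ * E + 6 * c) / θ := by positivity
    linarith
  set ε : ℝ := min (1 / 5 / C₂) (T / (C₁ / θ)) with hε
  have hεpos : 0 < ε := by rw [hε]; apply lt_min <;> positivity
  set B : ℝ := 10 ^ 7 * (1 + E + B₀ + c + 1 / c + C₁ + c * C₁ / θ + C₁ / θ + C₁ / (c * θ)) with hB
  set A : ℝ := 4 + 1 / c + C₁ / θ + 16 / (9 * c ^ 2) + 12544 * C₁ / (c * θ) with hA
  have hA1 : 1 ≤ A := by
    rw [hA]
    have h1 : 0 ≤ 1 / c := by positivity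
    have h2 : 0 ≤ 16 / (9 * c ^ 2) := by positivity
    have h3 : 0 ≤ C₁ / θ := by positivity
    have h4 : 0 ≤ 12544 * C₁ / (c * θ) := by positivity
    linarith
  obtain ⟨N₁, hN₁3, hN₁⟩ := sum_small hr1 hεpos
  obtain ⟨N₂, hN₂⟩ := large_log B
  obtain ⟨N₃, hN₃3, hN₃⟩ := large_pow_Mn 250 A
  refine ⟨max N₁ (max N₂ N₃), fun i hN d D hd hD => ?_⟩
  have hNi1 : N₁ ≤ Mn 8 i := (le_max_left _ _).trans hN
  have hNi2 : N₂ ≤ Mn 8 i := ((le_max_left _ _).trans (le_max_right _ _)).trans hN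
  have hNi3 : N₃ ≤ Mn 8 i := ((le_max_right _ _).trans (le_max_right _ _)).trans hN
  have hMM : ∀ n, i ≤ n → Mn 8 i ≤ Mn 8 n := fun n hn => by
    unfold Mn
    exact Nat.mul_le_mul_left _ (Nat.pow_le_pow_right (by norm_num) hn)
  have hLB : ∀ n, i ≤ n → B ≤ LL 8 n := fun n hn => hN₂ _ (hNi2.trans (hMM n hn))
  have p1 : 0 ≤ 1 / c := by positivity
  have p2 : 0 ≤ c * C₁ / θ := by positivity
  have p3 : 0 ≤ C₁ / θ := by positivity
  have p4 : 0 ≤ C₁ / (c * θ) := by positivity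
  have hL7 : ∀ n, i ≤ n → 10 ^ 7 ≤ LL 8 n := fun n hn => by
    have := hLB n hn
    rw [hB] at this
    linarith
  have hLp : ∀ n, i ≤ n → A * LL 8 n ^ 250 ≤ Mn 8 n := fun n hn => hN₃ 8 i hNi3 n hn
  have F : Lf i θ p c E B₀ C₁ h A 8 := {
    N3 := by norm_num
    θ0 := hθ
    θ1 := hθ1
    p2 := hp2
    p0 := by linarith
    c0 := hc
    E1 := hE
    B0 := hB₀
    C7 := by linarith
    h0 := hh0
    h1 := hh1
    A1 := hA1
    Lb := fun n hn => by
      have h1 := hLB n hn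
      rw [hB] at h1
      have e1 : 100 / c = 100 * (1 / c) := by ring
      have e2 : 80 * c * C₁ / θ = 80 * (c * C₁ / θ) := by ring
      rw [e1, e2]
      linarith
    Lp := hLp
    Ac := le_rfl }
  have hLM2 : ∀ n, i ≤ n → 2 * LL 8 n ^ 240 ≤ Mn 8 n := fun n hn => by
    have h1 := hL7 n hn
    have h2 := hLp n hn
    have h3 : 1 ≤ LL 8 n := by linarith
    have h4 : LL 8 n ≤ LL 8 n ^ 10 := le_self_pow₀ h3 (by norm_num)
    have h5 : LL 8 n ^ 250 ≤ A * LL 8 n ^ 250 := le_mul_of_one_le_left (by positivity) hA1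
    have h6 : LL 8 n ^ 250 = LL 8 n ^ 10 * LL 8 n ^ 240 := by rw [← pow_add]
    have h7 : 2 * LL 8 n ^ 240 ≤ LL 8 n ^ 10 * LL 8 n ^ 240 :=
      mul_le_mul_of_nonneg_right (by linarith) (by positivity)
    linarith
  have hGd : ∀ n, 0 ≤ c * (Mn 8 n : ℝ) ^ 2 := fun n => by positivity
  have G : Lg i θ p c E B₀ C₁ h A Jn d D := {
    F := F
    jp := hJ
    Lb := hLB
    L2 := fun n hn => LL_le (hL7 n hn)
    JM := fun n hn => by
      have h1 := hL7 n hn
      have h2 := hLM2 n hn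
      have h3 := LL_le h1
      have h4 := hJ.up n
      have h5 : (0 : ℝ) ≤ (Jn n : ℝ) - 1 := sub_nonneg.2 (by exact_mod_cast hJ.J1 n)
      have h6 : (2 : ℝ) ≤ (n : ℝ) + 2 := by simp
      obtain ⟨x, hx⟩ : ∃ x : ℝ, (n : ℝ) + 2 = x := ⟨_, rfl⟩
      rw [hx] at h3 h4 h6
      clear hx
      have h7 : 2 ≤ x ^ 10 := h6.trans (le_self_pow₀ (by linarith) (by norm_num))
      have h8 : LL 8 n ^ 240 ≤ x ^ 240 := pow_le_pow_left₀ (by linarith) h3 240
      have h9 : 2 * (((Jn n : ℝ) - 1) * LL 8 n ^ 240) ≤ Mn 8 n := by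
        calc 2 * (((Jn n : ℝ) - 1) * LL 8 n ^ 240)
            ≤ x ^ 10 * (((Jn n : ℝ) - 1) * x ^ 240) := by
              apply mul_le_mul h7 _ _ (by positivity)
              · exact mul_le_mul_of_nonneg_left h8 h5
              · exact mul_nonneg h5 (pow_nonneg (by linarith) _)
          _ = ((Jn n : ℝ) - 1) * x ^ 250 := by ring
          _ ≤ _ := h4
      have h10 : (Jn n : ℝ) * LL 8 n ^ 240 = ((Jn n : ℝ) - 1) * LL 8 n ^ 240 + LL 8 n ^ 240 := by
        ring
      rw [h10]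
      linarith
    LM := fun n hn => by
      have h1 := hLM2 n hn
      have h2 : 0 ≤ LL 8 n ^ 240 := by have := hL7 n hn; positivity
      linarith
    d1 := fun n => by have := abs_le.1 (hd n); linarith [this.1]
    d2 := fun n => by have := abs_le.1 (hd n); linarith [this.2]
    D1 := fun n => by have := abs_le.1 (hD n); linarith [this.1]
    D2 := fun n => by have := abs_le.1 (hD n); linarith [this.2] }
  have hsum : ∀ n, ∑ j ∈ Finset.range n, LL 8 (i + j) ^ (-r) ≤ ε := fun n => by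
    have := hN₁ _ hNi1 n
    simp only [Mn_add] at this
    exact this
  have hL0 := F.Lpos
  have hL1 := F.L1
  have hα0 := F.α0
  have hpow : ∀ k : ℕ, 2 ≤ k → ∀ n, 1 / LL 8 n ^ k ≤ LL 8 n ^ (-r) := fun k hk n => by
    rw [one_div, ← Real.rpow_natCast, ← Real.rpow_neg (hL0 n).le]
    apply Real.rpow_le_rpow_of_exponent_le (hL1 n)
    have : (2 : ℝ) ≤ k := by exact_mod_cast hk
    linarith
  set τ : ℕ → ℝ := fun n => C₁ * LL 8 n ^ h / al θ 2 p 8 n with hτ
  have hτ0 : ∀ n, 0 < τ n := F.τ0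
  have hα1τ : ∀ n, al θ 2 p 8 (n + 1) * τ n ≤ 16 * (C₁ * LL 8 n) := F.α1τ
  have hMα : ∀ n, (Mn 8 n : ℝ) ^ 2 / al θ 2 p 8 n = 1 / θ * LL 8 n ^ (-p) := fun n => by
    have h1 : 0 < LL 8 n ^ p := Real.rpow_pos_of_pos (hL0 n) p
    have h3 : (Mn 8 n : ℝ) ≠ 0 := by have := F.M1 n; positivity
    rw [Real.rpow_neg (hL0 n).le]
    unfold al
    unfold LL at h1 ⊢
    field_simp
  have hpr : ∀ n, LL 8 n ^ (-p) * LL 8 n ^ h = LL 8 n ^ (-r) := fun n => by
    rw [← Real.rpow_add (hL0 n)]; congr 1; rw [hh, hr]; ring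
  have hMτ : ∀ n, (Mn 8 n : ℝ) ^ 2 * τ n = C₁ / θ * LL 8 n ^ (-r) := fun n => by
    have : (Mn 8 n : ℝ) ^ 2 * τ n = C₁ * LL 8 n ^ h * ((Mn 8 n : ℝ) ^ 2 / al θ 2 p 8 n) := by
      simp only [hτ]; ring
    rw [this, hMα, ← hpr]; ring
  have hcMτ : ∀ n, c * (Mn 8 n : ℝ) ^ 2 * τ n = c * C₁ / θ * LL 8 n ^ (-r) := fun n => by
    rw [mul_assoc, hMτ]; ring
  have hLr0 : ∀ n, 0 ≤ LL 8 n ^ (-r) := fun n => Real.rpow_nonneg (hL0 n).le _
  have hLr1 : ∀ n, LL 8 n ^ (-r) ≤ 1 / LL 8 n := fun n => by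
    rw [one_div, ← Real.rpow_neg_one]
    exact Real.rpow_le_rpow_of_exponent_le (hL1 n) (by linarith)
  have hMsucc : ∀ n, c * (Mn 8 (n + 1) : ℝ) ^ 2 = 4 * (c * (Mn 8 n : ℝ) ^ 2) := fun n => by
    rw [Mn_succ]; push_cast; ring
  have hq' : ∀ n, 1 / LL 8 n ^ 4 / 16 ≤ 1 / LL 8 (n + 1) ^ 4 := fun n => by
    have h1 := hL0 n
    have h2 := hL0 (n + 1)
    rw [div_div, div_le_div_iff₀ (by positivity) (by positivity)]
    have := pow_le_pow_left₀ h2.le (F.L2 n) 4
    nlinarith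
  have hqle : ∀ n, 1 / LL 8 (n + 1) ^ 4 ≤ 1 / LL 8 n ^ 4 := fun n => by
    have h1 := hL0 n
    exact one_div_le_one_div_of_le (by positivity) (pow_le_pow_left₀ h1.le (F.Lm n) 4)
  have hMpos : ∀ n, 0 < c * (Mn 8 n : ℝ) ^ 2 := fun n => by
    have := F.M1 n; positivity
  have hdpos : ∀ n, 0 < d n := fun n => lt_of_lt_of_le (by have := hMpos n; positivity) (G.d1 n)
  have hS : Sgn d D (al θ 2 p 8) (mu θ 2 p 8) := {
    d0 := fun n => (hdpos n).le
    dd := fun n => by
      have h1 := G.d2 n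
      have h2 := G.d1 (n + 1)
      rw [hMsucc] at h2
      linarith [hMpos n]
    dD := fun n => by linarith [G.d2 n, G.D1 n, hMpos n]
    α0 := hα0
    μ0 := fun n => mu_pos hθ (by norm_num) n }
  have hμ70 : ∀ n, mu θ 2 p 8 n = al θ 2 p 8 n / LL 8 n ^ 70 := fun n => rfl
  have hw10 : ∀ n, i ≤ n → 1 / LL 8 n ^ 200 ≤ 1 / LL 8 n ^ 4 := fun n _ =>
    one_div_le_one_div_of_le (by have := hL0 n; positivity) (pow_le_pow_right₀ (hL1 n) (by norm_num))
  have hP : Pr i E d D (al θ 2 p 8) (mu θ 2 p 8) (fun n => 1 / LL 8 n ^ 2) τ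
      (fun n => 1 / LL 8 n ^ 4) (fun n => C₂ * LL 8 n ^ (-r)) (fun n => 1 / (24 * LL 8 n ^ 70))
      (fun n => 1 / LL 8 n ^ 200) := {
    S := hS
    E1 := hE
    d1 := hdpos
    με := fun n hn => by
      rw [hμ70, ← mul_div_assoc, div_le_iff₀ (by have := hL0 n; positivity)]
      have h1 : LL 8 n ≤ LL 8 n ^ 70 := le_self_pow₀ (hL1 n) (by norm_num)
      have h2 := hL7 n hn
      have h3 := mul_le_mul_of_nonneg_left (show 8 ≤ LL 8 n ^ 70 by linarith) (hα0 n).le
      linarith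
    κ0 := fun n _ => by have := hL0 n; positivity
    κ1 := fun n hn => by
      have h1 := hL7 n hn
      rw [div_le_div_iff₀ (by positivity) (by norm_num)]
      nlinarith
    s0 := fun n _ => by have := hL0 n; positivity
    s1 := fun n _ => by
      have h1 := one_le_pow₀ (hL1 n) (n := 70)
      rw [div_le_div_iff₀ (by positivity) (by norm_num)]
      linarith
    ss := fun n _ => by
      have h1 := hL0 n
      rw [F.με n, div_div, mul_comm (LL 8 n ^ 70) 24]
      exact one_div_le_one_div_of_le (by positivity)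
        (mul_le_mul_of_nonneg_left (pow_le_pow_left₀ h1.le (F.Lm n) 70) (by norm_num))
    τ0 := fun n _ => by
      have h0 := hL0 n
      have e0 : al θ 2 p 8 n * τ n = C₁ * LL 8 n ^ h := F.ατ n
      rw [e0]
      have e1 : Real.log (1 / (1 / LL 8 n ^ 2)) = 2 * Real.log (LL 8 n) := by
        rw [one_div_one_div, Real.log_pow]; push_cast; ring
      have e2 : Real.log (1 / ((1 / (24 * LL 8 n ^ 70)) ^ 2 / 2))
          = Real.log 1152 + 140 * Real.log (LL 8 n) := by
        have : 1 / ((1 / (24 * LL 8 n ^ 70)) ^ 2 / 2) = 1152 * LL 8 n ^ 140 := by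
          field_simp; norm_num
        rw [this, Real.log_mul (by norm_num) (by positivity), Real.log_pow]; push_cast; ring
      rw [e1, e2]
      have h1 := Real.log_le_rpow_div h0.le hh0
      have h2 := log_le_eight
      have h3 : 1 ≤ LL 8 n ^ h := Real.one_le_rpow (hL1 n) hh0.le
      have h4 : 142 * Real.log (LL 8 n) ≤ 142 / h * LL 8 n ^ h := by
        have : 142 / h * LL 8 n ^ h = 142 * (LL 8 n ^ h / h) := by ring
        rw [this]; linarith
      rw [hC₁]
      nlinarith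
    τp := fun n _ => hτ0 n
    q0 := fun n _ => by have := hL0 n; positivity
    q1 := fun n hn => by
      have h1 := hL7 n hn
      rw [div_le_div_iff₀ (by positivity) (by norm_num)]
      have : LL 8 n ≤ LL 8 n ^ 4 := le_self_pow₀ (hL1 n) (by norm_num)
      linarith
    w0 := fun n _ => by have := hL0 n; positivity
    wE := fun n hn => by
      have h0 := hL0 n
      have h1 := F.LE hn
      have e : (1 / (24 * LL 8 n ^ 70)) ^ 2 = 1 / (576 * LL 8 n ^ 140) := by
        field_simp; norm_num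
      rw [e, mul_one_div, div_le_div_iff₀ (by positivity) (by positivity), one_mul]
      have h2 : LL 8 n ^ 200 = LL 8 n ^ 60 * LL 8 n ^ 140 := by rw [← pow_add]
      rw [h2]
      have h3 : LL 8 n ≤ LL 8 n ^ 60 := le_self_pow₀ (hL1 n) (by norm_num)
      have h4 : 2304 * E ≤ LL 8 n ^ 60 := by linarith
      have h5 := mul_le_mul_of_nonneg_right h4 (show 0 ≤ LL 8 n ^ 140 by positivity)
      linarith
    wε := fun n hn => by
      have h0 := hL0 n
      have h1 := F.L2000 hn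
      rw [F.με n]
      have h2 := F.ex hn
      calc 48 * (1 / LL 8 n ^ 200 * Ex (al θ 2 p 8) (fun n => 1 / LL 8 n ^ 2) n)
          ≤ 48 * (1 / LL 8 n ^ 200 * (3 * LL 8 n ^ 64)) := by
            apply mul_le_mul_of_nonneg_left _ (by norm_num)
            exact mul_le_mul_of_nonneg_left h2 (by positivity)
        _ = 144 / LL 8 n ^ 66 * (1 / LL 8 n ^ 70) := by field_simp; norm_num
        _ ≤ 1 * (1 / LL 8 n ^ 70) := by
            apply mul_le_mul_of_nonneg_right _ (by positivity)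
            rw [div_le_one (by positivity)]
            have : LL 8 n ≤ LL 8 n ^ 66 := le_self_pow₀ (hL1 n) (by norm_num)
            linarith
        _ = _ := one_mul _
    wq := fun n _ => by
      have h0 := hL0 n
      rw [F.με n]
      have : 1 / LL 8 n ^ 70 * (1 / LL 8 n ^ 4) = 1 / LL 8 n ^ 74 := by field_simp
      rw [this]
      exact one_div_le_one_div_of_le (by positivity) (pow_le_pow_right₀ (hL1 n) (by norm_num))
    qd := fun n hn => by
      have h0 := hL0 n
      have h1 := F.αle' n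
      have h2 : mu θ 2 p 8 (n + 1) ≤ al θ 2 p 8 (n + 1) := by
        rw [hμ70]
        exact div_le_self (hα0 _).le (one_le_pow₀ (hL1 _))
      have h3 := hw10 n hn
      have h4 := F.Lc hn
      have h5 : 98 / 100 * (c * (Mn 8 (n + 1) : ℝ) ^ 2) ≤ D (n + 1) - d (n + 1) := by
        linarith [G.D1 (n + 1), G.d2 (n + 1)]
      refine le_trans ?_ h5
      have h6 : 0 < (Mn 8 (n + 1) : ℝ) ^ 2 := by have := F.M1 (n + 1); positivity
      calc (2 * al θ 2 p 8 (n + 1) + mu θ 2 p 8 (n + 1)) * (1 / LL 8 n ^ 4 + 1 / LL 8 n ^ 200)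
          ≤ (3 * ((Mn 8 (n + 1) : ℝ) ^ 2 * (4 * LL 8 n ^ 2))) * (2 * (1 / LL 8 n ^ 4)) := by
            apply mul_le_mul _ _ (by positivity) (by positivity)
            · linarith
            · linarith
        _ = 24 / LL 8 n ^ 2 * (Mn 8 (n + 1) : ℝ) ^ 2 := by field_simp; ring
        _ ≤ (98 / 100 * c) * (Mn 8 (n + 1) : ℝ) ^ 2 := by
            apply mul_le_mul_of_nonneg_right _ h6.le
            rw [div_le_iff₀ (by positivity)]
            rw [div_le_iff₀ hc] at h4
            have : LL 8 n ≤ LL 8 n ^ 2 := le_self_pow₀ (hL1 n) (by norm_num)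
            have := mul_le_mul_of_nonneg_left this hc.le
            linarith
        _ = _ := by ring
    qτ := fun n hn => by
      have h0 := hL0 n
      have h1 := hα1τ n
      have h2 := F.LC hn
      have h3 := hw10 n hn
      have hC₁0 : 0 < C₁ := by linarith
      have h4 : 0 ≤ al θ 2 p 8 (n + 1) * τ n := mul_nonneg (hα0 _).le (hτ0 n).le
      calc 3 * al θ 2 p 8 (n + 1) * (1 / LL 8 n ^ 4 + 1 / LL 8 n ^ 200) * τ n
          = 3 * (al θ 2 p 8 (n + 1) * τ n) * (1 / LL 8 n ^ 4 + 1 / LL 8 n ^ 200) := by ring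
        _ ≤ 3 * (16 * (C₁ * LL 8 n)) * (2 * (1 / LL 8 n ^ 4)) := by
            apply mul_le_mul (by linarith) (by linarith) (by positivity) (by positivity)
        _ = 96 * C₁ / LL 8 n ^ 3 := by field_simp; norm_num
        _ ≤ 1 := by
            rw [div_le_one (by positivity)]
            have : LL 8 n ≤ LL 8 n ^ 3 := le_self_pow₀ (hL1 n) (by norm_num)
            linarith
    qs := fun n hn => by
      have h0 := hL0 n
      have h1 := hα1τ n
      have h2 := F.LC hn
      have h2' := F.Lc hn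
      have hC₁0 : 0 < C₁ := by linarith
      rw [F.με n]
      have hexp := F.ex hn
      have hex0 : 0 ≤ Ex (al θ 2 p 8) (fun n => 1 / LL 8 n ^ 2) n := by unfold Ex; positivity
      set X := Ex (al θ 2 p 8) (fun n => 1 / LL 8 n ^ 2) n with hX
      have hH2 : (2 * (1 / LL 8 n ^ 70) * X) ^ 2 ≤ 36 / LL 8 n ^ 12 := by
        have hH : 2 * (1 / LL 8 n ^ 70) * X ≤ 6 / LL 8 n ^ 6 := by
          calc _ ≤ 2 * (1 / LL 8 n ^ 70) * (3 * LL 8 n ^ 64) :=
                mul_le_mul_of_nonneg_left hexp (by positivity)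
            _ = 6 / LL 8 n ^ 6 := by field_simp; norm_num
        have := pow_le_pow_left₀ (by positivity) hH 2
        calc _ ≤ _ := this
          _ = _ := by rw [div_pow, ← pow_mul]; norm_num
      have hfirst : 2 * al θ 2 p 8 (n + 1) * ((2 * (1 / LL 8 n ^ 70) * (1 / LL 8 n ^ 4)) ^ 2
          * (1 / d (n + 2))) ≤ 1 / LL 8 n ^ 4 / 32 := by
        have a0 := F.αle' n
        have a1 : 8 * c * (Mn 8 (n + 1) : ℝ) ^ 2 ≤ d (n + 2) := by
          have b1 := G.d1 (n + 1 + 1)
          rw [hMsucc (n + 1)] at b1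
          have b2 := hMpos (n + 1)
          change _ ≤ d (n + 2) at b1
          linarith
        have a2 : (0 : ℝ) < Mn 8 (n + 1) := by have := F.M1 (n + 1); positivity
        have a3 : 1 / d (n + 2) ≤ 1 / (8 * c * (Mn 8 (n + 1) : ℝ) ^ 2) :=
          one_div_le_one_div_of_le (by positivity) a1
        calc _ ≤ 2 * ((Mn 8 (n + 1) : ℝ) ^ 2 * (4 * LL 8 n ^ 2))
              * ((2 * (1 / LL 8 n ^ 70) * (1 / LL 8 n ^ 4)) ^ 2
              * (1 / (8 * c * (Mn 8 (n + 1) : ℝ) ^ 2))) := by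
              apply mul_le_mul _ _ _ (by positivity)
              · linarith
              · exact mul_le_mul_of_nonneg_left a3 (by positivity)
              · have := hdpos (n + 2); positivity
          _ = (128 / c) / LL 8 n ^ 142 * (1 / LL 8 n ^ 4 / 32) := by field_simp; norm_num
          _ ≤ 1 * (1 / LL 8 n ^ 4 / 32) := by
              apply mul_le_mul_of_nonneg_right _ (by positivity)
              rw [div_le_one (by positivity)]
              have b1 : LL 8 n ≤ LL 8 n ^ 142 := le_self_pow₀ (hL1 n) (by norm_num)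
              have b2 := G.Lc1 hn
              have b3 : 128 / c = 128 * (1 / c) := by ring
              linarith
          _ = _ := one_mul _
      have hsecond : 2 * al θ 2 p 8 (n + 1) * ((2 * (1 / LL 8 n ^ 70) * X) ^ 2 * τ n)
          ≤ 1 / LL 8 n ^ 4 / 32 := by
        calc 2 * al θ 2 p 8 (n + 1) * ((2 * (1 / LL 8 n ^ 70) * X) ^ 2 * τ n)
            = 2 * (2 * (1 / LL 8 n ^ 70) * X) ^ 2 * (al θ 2 p 8 (n + 1) * τ n) := by ring
          _ ≤ 2 * (36 / LL 8 n ^ 12) * (16 * (C₁ * LL 8 n)) := by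
              apply mul_le_mul (by linarith) h1 _ (by positivity)
              exact mul_nonneg (hα0 (n + 1)).le (hτ0 n).le
          _ = 36864 * C₁ / LL 8 n ^ 7 * (1 / LL 8 n ^ 4 / 32) := by field_simp; norm_num
          _ ≤ 1 * (1 / LL 8 n ^ 4 / 32) := by
              apply mul_le_mul_of_nonneg_right _ (by positivity)
              rw [div_le_one (by positivity)]
              have h3 : LL 8 n ≤ LL 8 n ^ 7 := le_self_pow₀ (hL1 n) (by norm_num)
              linarith
          _ = _ := one_mul _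
      have h5 := hq' n
      rw [mul_add]
      have e6 : 1 / LL 8 n ^ 4 / 32 + 1 / LL 8 n ^ 4 / 32 = 1 / LL 8 n ^ 4 / 16 := by ring
      linarith
    sd := fun n hn => by
      have h0 := hL0 n
      have h1 := hα1τ n
      have h2 := F.LC hn
      have h3 := hw10 n hn
      have hC₁0 : 0 < C₁ := by linarith
      have e1 : D (n + 1) * τ n ≤ 21 * (c * C₁ / θ * LL 8 n ^ (-r)) := by
        calc D (n + 1) * τ n ≤ 501 / 100 * (c * (Mn 8 (n + 1) : ℝ) ^ 2) * τ n :=
              mul_le_mul_of_nonneg_right (G.D2 (n + 1)) (hτ0 n).le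
          _ = 2004 / 100 * (c * (Mn 8 n : ℝ) ^ 2 * τ n) := by rw [hMsucc]; ring
          _ = 2004 / 100 * (c * C₁ / θ * LL 8 n ^ (-r)) := by rw [hcMτ]
          _ ≤ _ := mul_le_mul_of_nonneg_right (by norm_num) (mul_nonneg p2 (hLr0 n))
      have e2 : 21 * (c * C₁ / θ * LL 8 n ^ (-r)) ≤ 1 / 4 := by
        have a1 := G.LcCθ hn
        have a2 : 21 * (c * C₁ / θ * LL 8 n ^ (-r)) ≤ 21 * (c * C₁ / θ * (1 / LL 8 n)) := by
          have := mul_le_mul_of_nonneg_left (hLr1 n) p2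
          linarith
        refine a2.trans ?_
        have a3 : 21 * (c * C₁ / θ * (1 / LL 8 n)) = 84 * (c * C₁ / θ) / LL 8 n * (1 / 4) := by
          ring
        rw [a3]
        have a4 : 84 * (c * C₁ / θ) / LL 8 n ≤ 1 := by
          rw [div_le_one h0]; linarith
        linarith
      have e3 : al θ 2 p 8 (n + 1) * (1 / LL 8 n ^ 4 + 2 * (1 / LL 8 (n + 1) ^ 4)
          + 3 * (1 / LL 8 n ^ 200)) * τ n ≤ 1 / 4 := by
        have a1 := hqle n
        have a2 : 1 / LL 8 n ^ 4 + 2 * (1 / LL 8 (n + 1) ^ 4) + 3 * (1 / LL 8 n ^ 200)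
            ≤ 6 / LL 8 n ^ 4 := by
          have : 6 / LL 8 n ^ 4 = 6 * (1 / LL 8 n ^ 4) := by ring
          rw [this]; linarith
        have a3 : 0 ≤ al θ 2 p 8 (n + 1) * τ n := mul_nonneg (hα0 (n + 1)).le (hτ0 n).le
        calc _ = (1 / LL 8 n ^ 4 + 2 * (1 / LL 8 (n + 1) ^ 4) + 3 * (1 / LL 8 n ^ 200))
              * (al θ 2 p 8 (n + 1) * τ n) := by ring
          _ ≤ (6 / LL 8 n ^ 4) * (16 * (C₁ * LL 8 n)) :=
              mul_le_mul a2 h1 a3 (by positivity)
          _ = 384 * C₁ / LL 8 n ^ 3 * (1 / 4) := by field_simp; norm_num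
          _ ≤ 1 * (1 / 4) := by
              apply mul_le_mul_of_nonneg_right _ (by norm_num)
              rw [div_le_one (by positivity)]
              have : LL 8 n ≤ LL 8 n ^ 3 := le_self_pow₀ (hL1 n) (by norm_num)
              linarith
          _ = 1 / 4 := one_mul _
      have e4 : mu θ 2 p 8 (n + 1) * τ n ≤ 1 / 4 := by
        have a1 : mu θ 2 p 8 (n + 1) ≤ al θ 2 p 8 (n + 1) / LL 8 n ^ 2 := by
          rw [hμ70]
          apply div_le_div_of_nonneg_left (hα0 (n + 1)).le (by positivity)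
          calc LL 8 n ^ 2 ≤ LL 8 (n + 1) ^ 2 := pow_le_pow_left₀ h0.le (F.Lm n) 2
            _ ≤ LL 8 (n + 1) ^ 70 := pow_le_pow_right₀ (hL1 (n + 1)) (by norm_num)
        calc mu θ 2 p 8 (n + 1) * τ n ≤ al θ 2 p 8 (n + 1) / LL 8 n ^ 2 * τ n :=
              mul_le_mul_of_nonneg_right a1 (hτ0 n).le
          _ = al θ 2 p 8 (n + 1) * τ n / LL 8 n ^ 2 := by ring
          _ ≤ 16 * (C₁ * LL 8 n) / LL 8 n ^ 2 := div_le_div_of_nonneg_right h1 (by positivity)
          _ = 64 * C₁ / LL 8 n * (1 / 4) := by field_simp; norm_num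
          _ ≤ 1 * (1 / 4) := by
              apply mul_le_mul_of_nonneg_right _ (by norm_num)
              rw [div_le_one h0]; linarith
          _ = 1 / 4 := one_mul _
      rw [add_mul, add_mul]
      linarith
    ℓ1 := fun n hn => by
      have h0 := hL0 n
      rw [F.με n]
      have e1 : E * (d n + d (n + 1)) * τ n ≤ E * (21 * (c * C₁ / θ * LL 8 n ^ (-r))) := by
        have a1 := G.d2 n
        have a2 := G.d2 (n + 1)
        rw [hMsucc] at a2
        have a3 : (d n + d (n + 1)) * τ n ≤ 21 * (c * C₁ / θ * LL 8 n ^ (-r)) := by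
          calc (d n + d (n + 1)) * τ n ≤ (21 * (c * (Mn 8 n : ℝ) ^ 2)) * τ n := by
                apply mul_le_mul_of_nonneg_right _ (hτ0 n).le
                linarith [hMpos n]
            _ = 21 * (c * (Mn 8 n : ℝ) ^ 2 * τ n) := by ring
            _ = _ := by rw [hcMτ]
        rw [mul_assoc]
        exact mul_le_mul_of_nonneg_left a3 (by linarith)
      have e2 : D n / al θ 2 p 8 n ≤ 6 * c / θ * LL 8 n ^ (-r) := by
        have a0 : D n / al θ 2 p 8 n ≤ 6 * (c * (Mn 8 n : ℝ) ^ 2) / al θ 2 p 8 n := by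
          apply div_le_div_of_nonneg_right _ (hα0 n).le
          linarith [G.D2 n, hMpos n]
        have a1 : 6 * (c * (Mn 8 n : ℝ) ^ 2) / al θ 2 p 8 n
            = 6 * c * ((Mn 8 n : ℝ) ^ 2 / al θ 2 p 8 n) := by ring
        rw [a1, hMα] at a0
        refine a0.trans ?_
        have a2 : LL 8 n ^ (-p) ≤ LL 8 n ^ (-r) :=
          Real.rpow_le_rpow_of_exponent_le (hL1 n) (by rw [hr]; linarith)
        have a3 := mul_le_mul_of_nonneg_left a2 (by positivity : 0 ≤ 6 * c / θ)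
        calc 6 * c * (1 / θ * LL 8 n ^ (-p)) = 6 * c / θ * LL 8 n ^ (-p) := by ring
          _ ≤ _ := a3
      have e3 := hpow 4 (by norm_num) n
      have e4 := (hqle n).trans e3
      have e5 := hpow 70 (by norm_num) n
      have e6 := hpow 2 le_rfl n
      have e8 := hpow 200 (by norm_num) n
      have e7 : C₂ * LL 8 n ^ (-r)
          = E * (21 * (c * C₁ / θ * LL 8 n ^ (-r))) + 6 * c / θ * LL 8 n ^ (-r)
            + 11 * LL 8 n ^ (-r) := by rw [hC₂]; ring
      rw [e7]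
      linarith }
  refine ⟨_, τ, _, _, _, _, hP, fun n hn => by linarith [G.Lc hn], fun n hn => G.w1 hn,
    fun n hn => G.wτ hn, fun n hn => G.Y0 hn, fun n hn => G.Ys hn, fun n hn => (G.sη hn rfl).1,
    fun n hn => ?_, fun n hn => (G.sG hn).1, fun n hn => G.Gf hn, fun n => ?_, fun n => ?_⟩
  · exact G.ηf hn (by linarith) (by linarith)
  · rw [← Finset.mul_sum]
    have h1 := hsum n
    have h2 : C₂ * ∑ j ∈ Finset.range n, LL 8 (i + j) ^ (-r) ≤ C₂ * ε :=
      mul_le_mul_of_nonneg_left h1 (by linarith)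
    have h3 : C₂ * ε ≤ C₂ * (1 / 5 / C₂) := mul_le_mul_of_nonneg_left (min_le_left _ _) (by linarith)
    have h4 : C₂ * (1 / 5 / C₂) = 1 / 5 := by field_simp
    linarith
  · have h1 := hsum n
    have h2 : ∀ j ∈ Finset.range n, τ (i + j) ≤ C₁ / θ * LL 8 (i + j) ^ (-r) := by
      intro j _
      rw [← hMτ]
      have : (1 : ℝ) ≤ (Mn 8 (i + j) : ℝ) ^ 2 := one_le_pow₀ (F.M1 (i + j))
      exact le_mul_of_one_le_left (hτ0 _).le this
    calc _ ≤ ∑ j ∈ Finset.range n, C₁ / θ * LL 8 (i + j) ^ (-r) := Finset.sum_le_sum h2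
      _ = C₁ / θ * ∑ j ∈ Finset.range n, LL 8 (i + j) ^ (-r) := by rw [Finset.mul_sum]
      _ ≤ C₁ / θ * ε := mul_le_mul_of_nonneg_left h1 (by positivity)
      _ ≤ C₁ / θ * (T / (C₁ / θ)) := mul_le_mul_of_nonneg_left (min_le_right _ _) (by positivity)
      _ = T := by field_simp

end Pool.Agent.N937.NSP
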